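import Mathlib

/-! # Projections which split a function

`Spl h P`: the operator `P` is a projection and `h x = h (P x) + h (x - P x)` for all `x`, where `h`
is a continuous even function. We show: on the closure of the range of `P Q (1 - P)` the function `h`
is quadratic along all lines, for two such projections `P` and `Q`. With `h = ‖·‖ ^ p` this gives:
two `L^p`-projections commute, or `p = 2` and there is a vector `x ≠ 0` such that the parallelogram
identity holds for `x` and all `y`. -/

set_option autoImplicit false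
set_option linter.unusedSectionVars false

namespace Pool.Agent.J6H26.LP

open Filter Topology

variable {E : Type*} [NormedAddCommGroup E] [NormedSpace ℝ E]

/-- `P` is a projection which splits `h`. -/
structure Spl (h : E → ℝ) (P : E →L[ℝ] E) : Prop where
  idem : ∀ x, P (P x) = P x
  add : ∀ x, h x = h (P x) + h (x - P x)

/-- The odd part of `h` in the direction `x` at `y`. -/
def bt (h : E → ℝ) (x y : E) : ℝ := h (x + y) - h (x - y)

section
variable {h : E → ℝ}

theorem bt_zero (he : ∀ x, h (-x) = h x) (y : E) : bt h 0 y = 0 := by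
  simp [bt, he]

theorem bt_comm (he : ∀ x, h (-x) = h x) (x y : E) : bt h x y = bt h y x := by
  unfold bt
  rw [add_comm x y, ← he (x - y), neg_sub]

theorem bt_spl {P : E →L[ℝ] E} (hP : Spl h P) (x y : E) :
    bt h x y = bt h (P x) (P y) + bt h (x - P x) (y - P y) := by
  unfold bt
  have h1 := hP.add (x + y)
  have h2 := hP.add (x - y)
  rw [map_add] at h1
  rw [map_sub] at h2
  have e1 : x + y - (P x + P y) = x - P x + (y - P y) := by abel
  have e2 : x - y - (P x - P y) = x - P x - (y - P y) := by abel
  rw [e1] at h1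
  rw [e2] at h2
  linarith

theorem bt_left {P : E →L[ℝ] E} (he : ∀ x, h (-x) = h x) (hP : Spl h P) (x y : E) :
    bt h (P x) y = bt h (P x) (P y) := by
  have := bt_spl hP (P x) y
  rw [hP.idem, sub_self, bt_zero he, add_zero] at this
  exact this

theorem bt_right {P : E →L[ℝ] E} (he : ∀ x, h (-x) = h x) (hP : Spl h P) (x y : E) :
    bt h x (P y) = bt h (P x) (P y) := by
  rw [bt_comm he, bt_left he hP, bt_comm he]

theorem bt_left' {P : E →L[ℝ] E} (he : ∀ x, h (-x) = h x) (hP : Spl h P) (x y : E) :
    bt h (x - P x) y = bt h (x - P x) (y - P y) := by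
  have := bt_spl hP (x - P x) y
  rw [map_sub, hP.idem, sub_self, bt_zero he, zero_add, sub_zero] at this
  exact this

theorem bt_split {Q : E →L[ℝ] E} (he : ∀ x, h (-x) = h x) (hQ : Spl h Q) (z y : E) :
    bt h z y = bt h (Q z) y + bt h (z - Q z) y := by
  rw [bt_spl hQ z y, ← bt_left he hQ z y, ← bt_left' he hQ z y]

theorem bt_two {P Q : E →L[ℝ] E} (he : ∀ x, h (-x) = h x) (hP : Spl h P) (hQ : Spl h Q)
    (z y : E) : bt h (P z) y = bt h (P (Q z)) y + bt h (P (z - Q z)) y := by
  rw [bt_left he hP z y, ← bt_right he hP z y, bt_split he hQ z (P y), bt_right he hP (Q z) y,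
    bt_right he hP (z - Q z) y, ← bt_left he hP (Q z) y, ← bt_left he hP (z - Q z) y]

theorem Spl.compl {P : E →L[ℝ] E} (hP : Spl h P) : Spl h (1 - P) := by
  constructor
  · intro x
    simp [hP.idem]
  · intro x
    have := hP.add x
    have e : x - (1 - P) x = P x := by simp
    have e' : (1 - P) x = x - P x := by simp
    rw [e, e']
    linarith

/-- The operator `P Q (1 - P)`. -/
def Bo (P Q : E →L[ℝ] E) : E →L[ℝ] E := P * (Q * (1 - P))

theorem Bo_apply (P Q : E →L[ℝ] E) (w : E) : Bo P Q w = P (Q (w - P w)) := by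
  simp [Bo]

theorem bt_add_range {P Q : E →L[ℝ] E} (he : ∀ x, h (-x) = h x) (hP : Spl h P) (hQ : Spl h Q)
    (a b y : E) :
    bt h (Bo P Q a + Bo P Q b) y = bt h (Bo P Q a) y + bt h (Bo P Q b) y := by
  have hPB : ∀ w, P (Bo P Q w) = Bo P Q w := by
    intro w
    rw [Bo_apply, hP.idem]
  -- `P Q B w = B w - B (Q (1 - P) w)`
  have hPQ : ∀ w, P (Q (Bo P Q w)) = Bo P Q (w - Q (w - P w)) := by
    intro w
    simp only [Bo_apply, map_sub, hQ.idem]
    abel
  set u := Bo P Q a with hu
  set v := Bo P Q b with hv
  obtain ⟨w, hw⟩ : ∃ w, Bo P Q w = u - P (Q (u + v)) := by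
    refine ⟨a - ((a - Q (a - P a)) + (b - Q (b - P b))), ?_⟩
    rw [map_sub (Bo P Q), map_add (Bo P Q), ← hPQ a, ← hPQ b, map_add Q, map_add P]
  have hw' : P (Q (w - P w)) = u - P (Q (u + v)) := by rw [← Bo_apply, hw]
  have key := bt_two he hP hQ (u + v + (w - P w)) y
  have e1 : P (u + v + (w - P w)) = u + v := by
    rw [map_add, map_add, map_sub, hP.idem, sub_self, add_zero, hPB, hPB]
  have e2 : P (Q (u + v + (w - P w))) = u := by
    rw [map_add, map_add, hw']
    abel
  have e3 : P (u + v + (w - P w) - Q (u + v + (w - P w))) = v := by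
    rw [map_sub, e1, e2]
    abel
  rw [e1, e2, e3] at key
  exact key

/-- The closure of the range of `P Q (1 - P)`. -/
def XX (P Q : E →L[ℝ] E) : Submodule ℝ E := (LinearMap.range (Bo P Q).toLinearMap).topologicalClosure

theorem bt_cont (hc : Continuous h) (y : E) : Continuous fun x => bt h x y := by
  unfold bt
  fun_prop

theorem bt_add {P Q : E →L[ℝ] E} (hc : Continuous h) (he : ∀ x, h (-x) = h x) (hP : Spl h P)
    (hQ : Spl h Q) {u v : E} (hu : u ∈ XX P Q) (hv : v ∈ XX P Q) (y : E) :
    bt h (u + v) y = bt h u y + bt h v y := by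
  have hcl : IsClosed {q : E × E | bt h (q.1 + q.2) y = bt h q.1 y + bt h q.2 y} := by
    apply isClosed_eq
    · exact (bt_cont hc y).comp (by fun_prop)
    · exact ((bt_cont hc y).comp (by fun_prop)).add ((bt_cont hc y).comp (by fun_prop))
  have hsub : (Set.range (Bo P Q)) ×ˢ (Set.range (Bo P Q)) ⊆
      {q : E × E | bt h (q.1 + q.2) y = bt h q.1 y + bt h q.2 y} := by
    rintro ⟨a, b⟩ ⟨⟨a', rfl⟩, ⟨b', rfl⟩⟩
    exact bt_add_range he hP hQ a' b' y
  have hmem : (u, v) ∈ closure ((Set.range (Bo P Q)) ×ˢ (Set.range (Bo P Q))) := by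
    rw [closure_prod_eq]
    exact ⟨hu, hv⟩
  exact (closure_minimal hsub hcl) hmem

theorem bt_smul {P Q : E →L[ℝ] E} (hc : Continuous h) (he : ∀ x, h (-x) = h x) (hP : Spl h P)
    (hQ : Spl h Q) {x : E} (hx : x ∈ XX P Q) (y : E) (t : ℝ) :
    bt h (t • x) y = t * bt h x y := by
  let F : ℝ →+ ℝ :=
    { toFun := fun t => bt h (t • x) y
      map_zero' := by simp [bt_zero he]
      map_add' := by
        intro a b
        rw [add_smul]
        exact bt_add hc he hP hQ ((XX P Q).smul_mem a hx) ((XX P Q).smul_mem b hx) y }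
  have hF : Continuous F := (bt_cont hc y).comp (by fun_prop)
  have := (F.toRealLinearMap hF).map_smul t 1
  simpa [F] using this

end

/-- Functions whose symmetric differences are linear are quadratic. -/
theorem quad_of {f G : ℝ → ℝ} (hf : Continuous f) (hG : ∀ s t, f (s + t) - f (s - t) = t * G s) :
    ∃ a b : ℝ, ∀ t, f t = f 0 + a * t + b * t ^ 2 := by
  have hGc : Continuous G := by
    have : G = fun s => f (s + 1) - f (s - 1) := by
      funext s
      rw [hG s 1, one_mul]
    rw [this]
    fun_prop
  have hJ : ∀ s c, G (s + c) + G (s - c) = 2 * G s := by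
    intro s c
    by_cases h0 : c = 0
    · subst h0
      simp
      ring
    · have h1 := hG (s + c) c
      have h2 := hG (s - c) c
      have h3 := hG s (2 * c)
      have e1 : s + c - c = s := by ring
      have e2 : s - c + c = s := by ring
      have e3 : s + c + c = s + 2 * c := by ring
      have e4 : s - c - c = s - 2 * c := by ring
      rw [e1, e3] at h1
      rw [e2, e4] at h2
      have : c * (G (s + c) + G (s - c)) = c * (2 * G s) := by linarith
      exact mul_left_cancel₀ h0 this
  have hhalf : ∀ x, G x + G 0 = 2 * G (x / 2) := by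
    intro x
    have := hJ (x / 2) (x / 2)
    rw [add_halves, sub_self] at this
    exact this
  let A : ℝ →+ ℝ :=
    { toFun := fun s => G s - G 0
      map_zero' := by simp
      map_add' := by
        intro x y
        have h1 := hJ ((x + y) / 2) ((x - y) / 2)
        have e1 : (x + y) / 2 + (x - y) / 2 = x := by ring
        have e2 : (x + y) / 2 - (x - y) / 2 = y := by ring
        rw [e1, e2] at h1
        have h2 := hhalf (x + y)
        linarith }
  have hA : Continuous A := by
    change Continuous fun s => G s - G 0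
    fun_prop
  have hlin : ∀ s, G s = G 0 + s * (G 1 - G 0) := by
    intro s
    have := (A.toRealLinearMap hA).map_smul s 1
    simp only [smul_eq_mul, mul_one, AddMonoidHom.coe_toRealLinearMap] at this
    have h2 : G s - G 0 = s * (G 1 - G 0) := this
    linarith
  refine ⟨G 0 / 2, (G 1 - G 0) / 4, fun t => ?_⟩
  have h1 := hG (t / 2) (t / 2)
  rw [add_halves, sub_self, hlin (t / 2)] at h1
  linear_combination h1

theorem quad_line {h : E → ℝ} {P Q : E →L[ℝ] E} (hc : Continuous h) (he : ∀ x, h (-x) = h x)
    (hP : Spl h P) (hQ : Spl h Q) {x : E} (hx : x ∈ XX P Q) (y : E) :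
    ∃ a b : ℝ, ∀ t : ℝ, h (y + t • x) = h y + a * t + b * t ^ 2 := by
  have := quad_of (f := fun t : ℝ => h (y + t • x)) (G := fun s => bt h x (y + s • x))
    (by fun_prop) (by
      intro s t
      have h1 := bt_smul hc he hP hQ hx (y + s • x) t
      rw [← h1, bt_comm he]
      unfold bt
      congr 2
      · module
      · module)
  simpa using this

end Pool.Agent.J6H26.LP
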