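import Pool.Agent.J6H26.LP.Pn

/-! # Operators which commute with their conjugates

Let `G` be a group of isometries of a separable Banach space `E` which is transitive on the unit
sphere. A bounded operator `T` which commutes with all conjugates `g T g⁻¹`, `g ∈ G`, is zero or
injective. -/

set_option autoImplicit false
set_option linter.unusedSectionVars false

namespace Pool.Agent.J6H26.LP

open Filter Topology

variable {E : Type*} [NormedAddCommGroup E] [NormedSpace ℝ E]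

theorem not_meagre [CompleteSpace E] {s : Set E} (h : ∀ x, x ∈ s) : ¬ IsMeagre s := by
  rw [Set.eq_univ_of_forall h]
  exact not_isMeagre_of_isOpen isOpen_univ ⟨0, trivial⟩

theorem exists_int {ι : Type*} [Countable ι] {s : Set E} (hs : ¬ IsMeagre s) {A : ι → Set E}
    (h : s ⊆ ⋃ q, closure (A q)) : ∃ q, (interior (closure (A q))).Nonempty := by
  by_contra hcon
  push Not at hcon
  apply hs
  refine IsMeagre.mono h (isMeagre_iUnion fun q => IsNowhereDense.isMeagre ?_)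
  rw [isClosed_closure.isNowhereDense_iff]
  exact hcon q

/-- In a separable normed space, the vectors which are killed by some member `R` with `R ^ 2 ≠ 0` of a
bounded commuting family of operators are a meagre set. -/
theorem baire_comm [TopologicalSpace.SeparableSpace E] (F : Set (E →L[ℝ] E))
    (hF : ∀ P ∈ F, ∀ Q ∈ F, ∀ x, P (Q x) = Q (P x)) {M : ℝ} (hM0 : 0 ≤ M)
    (hM : ∀ P ∈ F, ∀ x, ‖P x‖ ≤ M * ‖x‖)
    (hk : ¬ IsMeagre {x : E | ∃ R ∈ F, R x = 0 ∧ ∃ y, R (R y) ≠ 0}) : False := by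
  set d := TopologicalSpace.denseSeq E with hd
  have hdd : DenseRange d := TopologicalSpace.denseRange_denseSeq E
  let η : ℕ → ℝ := fun l => ‖d l‖ / (4 * (M + 1))
  let A : ℕ × ℕ × ℕ → Set E := fun q =>
    {x | d q.2.2 ≠ 0 ∧ ∃ R ∈ F, R x = 0 ∧ ‖R (d q.1) - d q.2.1‖ < η q.2.2 ∧
      ‖R (d q.2.1) - d q.2.2‖ < η q.2.2}
  have hcov : {x : E | ∃ R ∈ F, R x = 0 ∧ ∃ y, R (R y) ≠ 0} ⊆ ⋃ q, closure (A q) := by
    rintro x ⟨R, hR, hRx, y, hy⟩
    -- a member of the dense sequence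
    obtain ⟨k, hkk⟩ : ∃ k, R (R (d k)) ≠ 0 := by
      by_contra hcon
      push Not at hcon
      apply hy
      have hcl : IsClosed {z : E | R (R z) = 0} := isClosed_eq (by fun_prop) (by fun_prop)
      exact (closure_minimal (by rintro _ ⟨k, rfl⟩; exact hcon k) hcl) (hdd y)
    have hpos : 0 < ‖R (R (d k))‖ := norm_pos_iff.2 hkk
    obtain ⟨l, hl⟩ := hdd.exists_dist_lt (R (R (d k)))
      (ε := ‖R (R (d k))‖ / (16 * (M + 1))) (by positivity)
    rw [dist_eq_norm] at hl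
    have h16 : ‖R (R (d k))‖ / (16 * (M + 1)) ≤ ‖R (R (d k))‖ / 16 := by
      apply div_le_div_of_nonneg_left hpos.le (by norm_num)
      linarith
    have hdl : ‖R (R (d k))‖ * (15 / 16) ≤ ‖d l‖ := by
      have h1 : ‖R (R (d k))‖ ≤ ‖R (R (d k)) - d l‖ + ‖d l‖ := by
        calc ‖R (R (d k))‖ = ‖(R (R (d k)) - d l) + d l‖ := by rw [sub_add_cancel]
          _ ≤ _ := norm_add_le _ _
      linarith
    have hdl0 : 0 < ‖d l‖ := by nlinarith
    have hη : ‖R (R (d k))‖ / (16 * (M + 1)) ≤ η l / 2 := by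
      change _ ≤ ‖d l‖ / (4 * (M + 1)) / 2
      rw [div_div, div_le_div_iff₀ (by positivity) (by positivity)]
      have : 0 ≤ M := hM0
      nlinarith
    have hη0 : 0 < η l := by
      change 0 < ‖d l‖ / (4 * (M + 1))
      positivity
    obtain ⟨j, hj⟩ := hdd.exists_dist_lt (R (d k)) (ε := η l / (2 * (M + 1))) (by positivity)
    rw [dist_eq_norm] at hj
    have hj1 : ‖R (d k) - d j‖ < η l := by
      refine hj.trans_le ?_
      rw [div_le_iff₀ (by positivity)]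
      nlinarith
    have hj2 : ‖R (d j) - d l‖ < η l := by
      have h1 : R (d j) - d l = (R (R (d k)) - d l) - R (R (d k) - d j) := by
        rw [map_sub]
        abel
      have h2 : ‖R (R (d k) - d j)‖ ≤ η l / 2 := by
        calc ‖R (R (d k) - d j)‖ ≤ M * ‖R (d k) - d j‖ := hM R hR _
          _ ≤ M * (η l / (2 * (M + 1))) := by gcongr
          _ ≤ η l / 2 := by
            rw [mul_div_assoc', div_le_div_iff₀ (by positivity) (by positivity)]
            nlinarith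
      calc ‖R (d j) - d l‖ ≤ ‖R (R (d k)) - d l‖ + ‖R (R (d k) - d j)‖ := by
            rw [h1]
            exact norm_sub_le _ _
        _ < η l / 2 + η l / 2 := by linarith
        _ = η l := by ring
    exact Set.mem_iUnion.2 ⟨(k, j, l), subset_closure ⟨norm_pos_iff.1 hdl0, R, hR, hRx, hj1, hj2⟩⟩
  obtain ⟨⟨k, j, l⟩, hint⟩ := exists_int hk hcov
  obtain ⟨x0, hx0⟩ := hint
  obtain ⟨r, hr, hball⟩ := Metric.isOpen_iff.1 isOpen_interior x0 hx0
  have hsub : Metric.ball x0 r ⊆ closure (A (k, j, l)) := hball.trans interior_subset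
  -- small values
  have hsmall : ∀ x ∈ Metric.ball x0 r, ∀ ε : ℝ, 0 < ε → d l ≠ 0 ∧ ∃ R ∈ F, ‖R x‖ < ε ∧
      ‖R (d k) - d j‖ < η l ∧ ‖R (d j) - d l‖ < η l := by
    intro x hx ε hε
    obtain ⟨x', ⟨h0, R, hR, hRx', h1, h2⟩, hdist⟩ :=
      Metric.mem_closure_iff.1 (hsub hx) (ε / (M + 1)) (by positivity)
    refine ⟨h0, R, hR, ?_, h1, h2⟩
    rw [dist_eq_norm] at hdist
    calc ‖R x‖ = ‖R (x - x')‖ := by rw [map_sub, hRx', sub_zero]
      _ ≤ M * ‖x - x'‖ := hM R hR _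
      _ ≤ M * (ε / (M + 1)) := by gcongr
      _ < ε := by
        rw [mul_div_assoc', div_lt_iff₀ (by positivity)]
        nlinarith
  set s := r / (2 * (‖d k‖ + 1)) with hs
  have hs0 : 0 < s := by
    have := norm_nonneg (d k)
    positivity
  have hx1 : x0 + s • d k ∈ Metric.ball x0 r := by
    rw [Metric.mem_ball, dist_eq_norm, add_sub_cancel_left, norm_smul, Real.norm_eq_abs,
      abs_of_pos hs0, hs, div_mul_eq_mul_div, div_lt_iff₀ (by positivity)]
    nlinarith [norm_nonneg (d k)]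
  have hdl0 : d l ≠ 0 := (hsmall x0 (Metric.mem_ball_self hr) 1 one_pos).1
  have hdlp : 0 < ‖d l‖ := norm_pos_iff.2 hdl0
  set ε := s * ‖d l‖ / (4 * (M + 1)) with hε
  have hε0 : 0 < ε := by positivity
  obtain ⟨-, R1, hR1, h1, h1a, h1b⟩ := hsmall x0 (Metric.mem_ball_self hr) ε hε0
  obtain ⟨-, R2, hR2, h2, h2a, h2b⟩ := hsmall _ hx1 ε hε0
  have e1 : s • R1 (R2 (d k)) = R1 (R2 (x0 + s • d k)) - R2 (R1 x0) := by
    rw [map_add, map_add, hF R1 hR1 R2 hR2 x0, map_smul, map_smul]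
    abel
  have e2 : s * ‖R1 (R2 (d k))‖ ≤ 2 * (M * ε) := by
    have : ‖s • R1 (R2 (d k))‖ ≤ M * ε + M * ε := by
      rw [e1]
      refine (norm_sub_le _ _).trans (add_le_add ?_ ?_)
      · exact (hM R1 hR1 _).trans (by gcongr)
      · exact (hM R2 hR2 _).trans (by gcongr)
    rw [norm_smul, Real.norm_eq_abs, abs_of_pos hs0] at this
    linarith
  have e3 : ‖R1 (R2 (d k)) - d l‖ ≤ ‖d l‖ / 4 := by
    have e4 : R1 (R2 (d k)) - d l = R1 (R2 (d k) - d j) + (R1 (d j) - d l) := by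
      rw [map_sub]
      abel
    calc ‖R1 (R2 (d k)) - d l‖ ≤ ‖R1 (R2 (d k) - d j)‖ + ‖R1 (d j) - d l‖ := by
          rw [e4]
          exact norm_add_le _ _
      _ ≤ M * η l + η l := add_le_add ((hM R1 hR1 _).trans (by gcongr)) h1b.le
      _ = ‖d l‖ / 4 := by
        change M * (‖d l‖ / (4 * (M + 1))) + ‖d l‖ / (4 * (M + 1)) = _
        field_simp
  have e5 : ‖d l‖ * (3 / 4) ≤ ‖R1 (R2 (d k))‖ := by
    have : ‖d l‖ ≤ ‖R1 (R2 (d k)) - d l‖ + ‖R1 (R2 (d k))‖ := by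
      calc ‖d l‖ = ‖R1 (R2 (d k)) - (R1 (R2 (d k)) - d l)‖ := by rw [sub_sub_cancel]
        _ ≤ ‖R1 (R2 (d k))‖ + ‖R1 (R2 (d k)) - d l‖ := norm_sub_le _ _
        _ = _ := add_comm _ _
    linarith
  have e6 : 2 * (M * ε) ≤ s * ‖d l‖ / 2 := by
    rw [hε, ← mul_assoc, mul_div_assoc', div_le_div_iff₀ (by positivity) (by norm_num)]
    have : 0 < s * ‖d l‖ := by positivity
    nlinarith
  have e7 : s * (‖d l‖ * (3 / 4)) ≤ s * ‖R1 (R2 (d k))‖ := by gcongr
  have : 0 < s * ‖d l‖ := by positivity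
  nlinarith

/-- The conjugate of `T` by `g`. -/
def cj (T : E →L[ℝ] E) (g : E ≃ₗᵢ[ℝ] E) : E →L[ℝ] E :=
  (g.toContinuousLinearEquiv : E →L[ℝ] E) * (T * (g.symm.toContinuousLinearEquiv : E →L[ℝ] E))

theorem cj_apply (T : E →L[ℝ] E) (g : E ≃ₗᵢ[ℝ] E) (x : E) : cj T g x = g (T (g.symm x)) := rfl

/-- First step: `T` is injective, or `T ^ 2 = 0`. -/
theorem inj_or_sq [CompleteSpace E] [TopologicalSpace.SeparableSpace E]
    (G : Subgroup (E ≃ₗᵢ[ℝ] E)) (hG : ∀ x y : E, ‖x‖ = 1 → ‖y‖ = 1 → ∃ g ∈ G, g x = y)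
    (T : E →L[ℝ] E) (hT : ∀ g ∈ G, ∀ h ∈ G, ∀ x, cj T g (cj T h x) = cj T h (cj T g x))
    {x1 : E} (hx1 : x1 ≠ 0) (hTx : T x1 = 0) (y : E) : T (T y) = 0 := by
  by_contra hy
  refine baire_comm (Set.range fun g : G => cj T (g : E ≃ₗᵢ[ℝ] E)) ?_ (norm_nonneg T) ?_
    (not_meagre ?_)
  · rintro _ ⟨g, rfl⟩ _ ⟨h, rfl⟩ x
    exact hT g g.2 h h.2 x
  · rintro _ ⟨g, rfl⟩ x
    change ‖cj T g x‖ ≤ _
    rw [cj_apply, LinearIsometryEquiv.norm_map]
    calc ‖T ((g : E ≃ₗᵢ[ℝ] E).symm x)‖ ≤ ‖T‖ * ‖(g : E ≃ₗᵢ[ℝ] E).symm x‖ := T.le_opNorm _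
      _ = ‖T‖ * ‖x‖ := by rw [LinearIsometryEquiv.norm_map]
  · intro x
    have hsq : ∀ g : E ≃ₗᵢ[ℝ] E, cj T g (cj T g (g y)) ≠ 0 := by
      intro g
      rw [cj_apply, cj_apply, g.symm_apply_apply, g.symm_apply_apply]
      intro h
      exact hy ((map_eq_zero_iff _ g.injective).1 h)
    by_cases hx : x = 0
    · subst hx
      exact ⟨cj T ((1 : G) : E ≃ₗᵢ[ℝ] E), ⟨1, rfl⟩, map_zero _, _, hsq _⟩
    · have hxn : ‖x‖ ≠ 0 := norm_ne_zero_iff.2 hx
      have hx1n : ‖x1‖ ≠ 0 := norm_ne_zero_iff.2 hx1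
      obtain ⟨g, hg, hgx⟩ := hG (‖x1‖⁻¹ • x1) (‖x‖⁻¹ • x) (by simp [norm_smul, hx1n])
        (by simp [norm_smul, hxn])
      refine ⟨cj T g, ⟨⟨g, hg⟩, rfl⟩, ?_, _, hsq g⟩
      have h1 : g.symm x = ‖x‖ • (‖x1‖⁻¹ • x1) := by
        rw [← g.symm_apply_apply (‖x‖ • (‖x1‖⁻¹ • x1)), map_smul g, hgx, smul_inv_smul₀ hxn]
      have h2 : T (g.symm x) = 0 := by
        rw [h1, map_smul T, map_smul T, hTx, smul_zero, smul_zero]
      rw [cj_apply, h2, map_zero]

/-- **An operator which commutes with its conjugates is zero or injective.** -/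
theorem zero_or_inj [CompleteSpace E] [TopologicalSpace.SeparableSpace E]
    (G : Subgroup (E ≃ₗᵢ[ℝ] E)) (hG : ∀ x y : E, ‖x‖ = 1 → ‖y‖ = 1 → ∃ g ∈ G, g x = y)
    (T : E →L[ℝ] E) (hT : ∀ g ∈ G, ∀ x, T (g (T (g.symm x))) = g (T (g.symm (T x)))) :
    T = 0 ∨ Function.Injective T := by
  by_cases hinj : Function.Injective T
  · exact Or.inr hinj
  left
  obtain ⟨x1, hx1, hTx⟩ : ∃ x1, x1 ≠ 0 ∧ T x1 = 0 := by
    by_contra hcon
    push Not at hcon
    apply hinj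
    rw [injective_iff_map_eq_zero]
    intro a ha
    by_contra h
    exact hcon a h ha
  -- all conjugates commute
  have hcc : ∀ g ∈ G, ∀ h ∈ G, ∀ x, cj T g (cj T h x) = cj T h (cj T g x) := by
    intro g hg h hh x
    have h1 := hT (g⁻¹ * h) (G.mul_mem (G.inv_mem hg) hh) (g.symm x)
    have e1 : ∀ z, (g⁻¹ * h) z = g.symm (h z) := fun z => rfl
    have e2 : ∀ z, (g⁻¹ * h).symm z = h.symm (g z) := fun z => rfl
    simp only [e1, e2, g.apply_symm_apply] at h1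
    simp only [cj_apply]
    rw [h1, g.apply_symm_apply]
  have hsq : ∀ y, T (T y) = 0 := inj_or_sq G hG T hcc hx1 hTx
  -- the products with conjugates vanish
  have hprod : ∀ g ∈ G, ∀ x, T (cj T g x) = 0 := by
    intro g hg x
    have hgT : ∀ z, T (cj T g z) = cj T g (T z) := by
      intro z
      exact hT g hg z
    have hgs : ∀ z, cj T g (cj T g z) = 0 := by
      intro z
      rw [cj_apply, cj_apply, g.symm_apply_apply, hsq, map_zero]
    set S : E →L[ℝ] E := T + cj T g with hS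
    have hSa : ∀ z, S z = T z + cj T g z := fun z => rfl
    have hcjS : ∀ h : E ≃ₗᵢ[ℝ] E, ∀ z, cj S h z = cj T h z + cj T (h * g) z := by
      intro h z
      rw [cj_apply, hSa, map_add]
      rfl
    have hSS : ∀ z, S (S z) = (2 : ℝ) • T (cj T g z) := by
      intro z
      rw [hSa (S z), hSa z, map_add, map_add, hsq, hgs, ← hgT, two_smul]
      abel
    have hSSS : ∀ z, S (S (S z)) = 0 := by
      intro z
      rw [hSS, hSa, map_add, map_add, hgs, ← hgT z, hsq, map_zero, add_zero, smul_zero]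
    by_contra hne
    have hS2 : S (S x) ≠ 0 := by
      rw [hSS]
      exact smul_ne_zero two_ne_zero hne
    have hScc : ∀ a ∈ G, ∀ b ∈ G, ∀ z, cj S a (cj S b z) = cj S b (cj S a z) := by
      intro a ha b hb z
      have hag := G.mul_mem ha hg
      have hbg := G.mul_mem hb hg
      simp only [hcjS, map_add]
      rw [hcc a ha b hb, hcc a ha _ hbg, hcc _ hag b hb, hcc _ hag _ hbg]
      abel
    exact hS2 (inj_or_sq G hG S hScc hS2 (hSSS x) x)
  -- conclusion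
  by_contra hT0
  obtain ⟨x, hx⟩ : ∃ x, T x ≠ 0 := by
    by_contra hcon
    push Not at hcon
    exact hT0 (by ext z; simpa using hcon z)
  apply hT0
  ext y
  by_cases hy : y = 0
  · subst hy
    simp
  have hyn : ‖y‖ ≠ 0 := norm_ne_zero_iff.2 hy
  have hxn : ‖T x‖ ≠ 0 := norm_ne_zero_iff.2 hx
  obtain ⟨g, hg, hgx⟩ := hG (‖T x‖⁻¹ • T x) (‖y‖⁻¹ • y) (by simp [norm_smul, hxn])
    (by simp [norm_smul, hyn])
  have h1 := hprod g hg (g x)
  rw [cj_apply, g.symm_apply_apply] at h1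
  have h2 : y = (‖y‖ * ‖T x‖⁻¹) • g (T x) := by
    rw [mul_smul, ← map_smul g, hgx, smul_inv_smul₀ hyn]
  change T y = 0
  rw [h2, map_smul, h1, smul_zero]

end Pool.Agent.J6H26.LP
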