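import Pool.Agent.J6H26.LP.Alg

/-! # `L^p`-projections which do not commute

Two `L^p`-projections commute, or `p = 2` and there is a vector `x ≠ 0` such that the parallelogram
identity holds for `x` and all `y`. -/

set_option autoImplicit false
set_option linter.unusedSectionVars false

namespace Pool.Agent.J6H26.LP

open Filter Topology

variable {E : Type*} [NormedAddCommGroup E] [NormedSpace ℝ E]

/-- The `p`-th power of the norm. -/
noncomputable def pn (E : Type*) [NormedAddCommGroup E] (p : ℝ) (x : E) : ℝ := ‖x‖ ^ p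

theorem pn_cont {p : ℝ} (hp : 1 ≤ p) : Continuous (pn E p) := by
  unfold pn
  exact continuous_norm.rpow_const fun x => Or.inr (by linarith)

theorem pn_even {p : ℝ} (x : E) : pn E p (-x) = pn E p x := by simp [pn]

theorem pn_nonneg {p : ℝ} (x : E) : 0 ≤ pn E p x := Real.rpow_nonneg (norm_nonneg x) p

theorem pn_zero {p : ℝ} (hp : 1 ≤ p) : pn E p 0 = 0 := by
  unfold pn
  rw [norm_zero, Real.zero_rpow (by linarith)]

theorem pn_eq_zero {p : ℝ} (hp : 1 ≤ p) {x : E} (h : pn E p x = 0) : x = 0 := by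
  unfold pn at h
  rw [Real.rpow_eq_zero (norm_nonneg x) (by linarith)] at h
  exact norm_eq_zero.1 h

theorem pn_smul {p : ℝ} (t : ℝ) (x : E) : pn E p (t • x) = |t| ^ p * pn E p x := by
  unfold pn
  rw [norm_smul, Real.mul_rpow (norm_nonneg t) (norm_nonneg x), Real.norm_eq_abs]

theorem p_eq_two {p : ℝ} (hp : 1 ≤ p) {x : E} (hx : x ≠ 0)
    (hq : ∃ a b : ℝ, ∀ t : ℝ, pn E p (0 + t • x) = pn E p 0 + a * t + b * t ^ 2) : p = 2 := by
  obtain ⟨a, b, hab⟩ := hq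
  have h0 : pn E p x ≠ 0 := fun h => hx (pn_eq_zero hp h)
  have h1 := hab 1
  have h2 := hab (-1)
  have h3 := hab 2
  rw [zero_add, pn_smul, pn_zero hp] at h1 h2 h3
  rw [abs_one, Real.one_rpow] at h1
  rw [abs_neg, abs_one, Real.one_rpow] at h2
  rw [abs_two] at h3
  have ha : a = 0 := by linarith
  have hb : b = pn E p x := by linarith
  rw [ha, hb] at h3
  have h4 : (2 : ℝ) ^ p = 2 ^ (2 : ℝ) := by
    have : (2 : ℝ) ^ p * pn E p x = 4 * pn E p x := by rw [h3]; ring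
    have := mul_right_cancel₀ h0 this
    rw [this]
    norm_num
  exact (Real.rpow_right_inj (by norm_num) (by norm_num)).1 h4

theorem le_of_sq {c K : ℝ} (h : ∀ t : ℝ, 1 ≤ t → c * t ^ 2 ≤ K * t) : c ≤ 0 := by
  by_contra hc
  push Not at hc
  have h1 := h (max 1 (K / c + 1)) (le_max_left _ _)
  set t := max 1 (K / c + 1) with ht
  have ht1 : 1 ≤ t := le_max_left _ _
  have ht2 : K / c + 1 ≤ t := le_max_right _ _
  have ht0 : 0 < t := by linarith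
  have h2 : c * t ≤ K := by
    have : c * t * t ≤ K * t := by nlinarith
    exact le_of_mul_le_mul_right this ht0
  have h3 : K / c < t := by linarith
  rw [div_lt_iff₀ hc] at h3
  nlinarith

theorem par_of {x y : E}
    (hq : ∃ a b : ℝ, ∀ t : ℝ, ‖y + t • x‖ ^ 2 = ‖y‖ ^ 2 + a * t + b * t ^ 2) :
    ‖y + x‖ ^ 2 + ‖y - x‖ ^ 2 = 2 * (‖y‖ ^ 2 + ‖x‖ ^ 2) := by
  obtain ⟨a, b, hab⟩ := hq
  have hup : ∀ t : ℝ, 1 ≤ t → (b - ‖x‖ ^ 2) * t ^ 2 ≤ (2 * ‖x‖ * ‖y‖ + |a|) * t := by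
    intro t ht
    have h1 : ‖y + t • x‖ ≤ ‖y‖ + t * ‖x‖ := by
      calc ‖y + t • x‖ ≤ ‖y‖ + ‖t • x‖ := norm_add_le _ _
        _ = ‖y‖ + t * ‖x‖ := by rw [norm_smul, Real.norm_eq_abs, abs_of_nonneg (by linarith)]
    have h2 : ‖y + t • x‖ ^ 2 ≤ (‖y‖ + t * ‖x‖) ^ 2 := by gcongr
    rw [hab t] at h2
    have h3 : -(|a| * t) ≤ a * t := by
      have := neg_abs_le a
      nlinarith
    nlinarith
  have hlow : ∀ t : ℝ, 1 ≤ t → (‖x‖ ^ 2 - b) * t ^ 2 ≤ (2 * ‖x‖ * ‖y‖ + |a|) * t := by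
    intro t ht
    have h1 : t * ‖x‖ ≤ ‖y + t • x‖ + ‖y‖ := by
      calc t * ‖x‖ = ‖t • x‖ := by
            rw [norm_smul, Real.norm_eq_abs, abs_of_nonneg (by linarith)]
        _ = ‖(y + t • x) - y‖ := by rw [add_sub_cancel_left]
        _ ≤ ‖y + t • x‖ + ‖y‖ := norm_sub_le _ _
    have h3 : a * t ≤ |a| * t := by
      have := le_abs_self a
      nlinarith
    have h4 := hab t
    have hx0 := norm_nonneg x
    have hy0 := norm_nonneg y
    have h5 : (t * ‖x‖ - ‖y‖) ^ 2 ≤ ‖y + t • x‖ ^ 2 := by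
      have h6 : ‖y‖ ≤ ‖y + t • x‖ + t * ‖x‖ := by
        calc ‖y‖ = ‖(y + t • x) - t • x‖ := by rw [add_sub_cancel_right]
          _ ≤ ‖y + t • x‖ + ‖t • x‖ := norm_sub_le _ _
          _ = ‖y + t • x‖ + t * ‖x‖ := by
            rw [norm_smul, Real.norm_eq_abs, abs_of_nonneg (by linarith)]
      exact sq_le_sq' (by linarith) (by linarith)
    nlinarith
  have h1 := le_of_sq hup
  have h2 := le_of_sq hlow
  have hb : b = ‖x‖ ^ 2 := by linarith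
  have e1 := hab 1
  have e2 := hab (-1)
  rw [one_smul] at e1
  rw [neg_smul, one_smul, ← sub_eq_add_neg] at e2
  rw [e1, e2, hb]
  ring

theorem par_of_mem {p : ℝ} (hp : 1 ≤ p) {P Q : E →L[ℝ] E} (hP : Spl (pn E p) P)
    (hQ : Spl (pn E p) Q) {x : E} (hx : x ∈ XX P Q) (hx0 : x ≠ 0) :
    p = 2 ∧ ∀ y : E, ‖y + x‖ ^ 2 + ‖y - x‖ ^ 2 = 2 * (‖y‖ ^ 2 + ‖x‖ ^ 2) := by
  have hp2 := p_eq_two hp hx0 (quad_line (pn_cont hp) pn_even hP hQ hx 0)
  refine ⟨hp2, fun y => ?_⟩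
  apply par_of
  have := quad_line (pn_cont hp) pn_even hP hQ hx y
  subst hp2
  simpa [pn] using this

/-- Two `L^p`-projections commute, or `p = 2` and some nonzero vector satisfies the parallelogram
identity together with every vector. -/
theorem exists_par {p : ℝ} (hp : 1 ≤ p) {P Q : E →L[ℝ] E} (hP : Spl (pn E p) P)
    (hQ : Spl (pn E p) Q) (hne : P * Q ≠ Q * P) :
    p = 2 ∧ ∃ x : E, x ≠ 0 ∧ ∀ y : E, ‖y + x‖ ^ 2 + ‖y - x‖ ^ 2 = 2 * (‖y‖ ^ 2 + ‖x‖ ^ 2) := by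
  by_cases h1 : Bo P Q = 0
  · by_cases h2 : Bo (1 - P) Q = 0
    · exfalso
      apply hne
      ext w
      have e1 : P (Q (w - P w)) = 0 := by
        rw [← Bo_apply, h1]
        rfl
      have e2 : Q (P w) - P (Q (P w)) = 0 := by
        have : Bo (1 - P) Q w = 0 := by rw [h2]; rfl
        rw [Bo_apply] at this
        simpa using this
      rw [map_sub, map_sub] at e1
      change P (Q w) = Q (P w)
      rw [sub_eq_zero] at e1 e2
      rw [e1, ← e2]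
    · obtain ⟨w, hw⟩ : ∃ w, Bo (1 - P) Q w ≠ 0 := by
        by_contra hcon
        push Not at hcon
        exact h2 (by ext w; simpa using hcon w)
      have hmem : Bo (1 - P) Q w ∈ XX (1 - P) Q :=
        Submodule.le_topologicalClosure _ ⟨w, rfl⟩
      obtain ⟨h3, h4⟩ := par_of_mem hp hP.compl hQ hmem hw
      exact ⟨h3, _, hw, h4⟩
  · obtain ⟨w, hw⟩ : ∃ w, Bo P Q w ≠ 0 := by
      by_contra hcon
      push Not at hcon
      exact h1 (by ext w; simpa using hcon w)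
    have hmem : Bo P Q w ∈ XX P Q := Submodule.le_topologicalClosure _ ⟨w, rfl⟩
    obtain ⟨h3, h4⟩ := par_of_mem hp hP hQ hmem hw
    exact ⟨h3, _, hw, h4⟩

/-- If the orbits are dense, then one vector as above is enough. -/
theorem par_of_dense (hG : ∀ x y : E, ‖x‖ = 1 → ‖y‖ = 1 → ∀ ε : ℝ, 0 < ε →
      ∃ g : E ≃ₗᵢ[ℝ] E, ‖g x - y‖ < ε) {x : E} (hx : x ≠ 0)
    (hpar : ∀ y : E, ‖y + x‖ ^ 2 + ‖y - x‖ ^ 2 = 2 * (‖y‖ ^ 2 + ‖x‖ ^ 2)) (z y : E) :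
    ‖y + z‖ ^ 2 + ‖y - z‖ ^ 2 = 2 * (‖y‖ ^ 2 + ‖z‖ ^ 2) := by
  -- scaling
  have hsc : ∀ (c : ℝ) (y : E), ‖y + c • x‖ ^ 2 + ‖y - c • x‖ ^ 2 =
      2 * (‖y‖ ^ 2 + ‖c • x‖ ^ 2) := by
    intro c y
    by_cases hc : c = 0
    · subst hc
      simp
      ring
    · have := hpar (c⁻¹ • y)
      have e1 : ‖y + c • x‖ = |c| * ‖c⁻¹ • y + x‖ := by
        rw [← Real.norm_eq_abs, ← norm_smul, smul_add, smul_inv_smul₀ hc]
      have e2 : ‖y - c • x‖ = |c| * ‖c⁻¹ • y - x‖ := by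
        rw [← Real.norm_eq_abs, ← norm_smul, smul_sub, smul_inv_smul₀ hc]
      have e3 : ‖y‖ = |c| * ‖c⁻¹ • y‖ := by
        rw [← Real.norm_eq_abs, ← norm_smul, smul_inv_smul₀ hc]
      have e4 : ‖c • x‖ = |c| * ‖x‖ := by
        rw [← Real.norm_eq_abs, ← norm_smul]
      rw [e1, e2, e3, e4]
      linear_combination |c| ^ 2 * this
  -- isometries
  have hiso : ∀ (g : E ≃ₗᵢ[ℝ] E) (c : ℝ) (y : E), ‖y + g (c • x)‖ ^ 2 + ‖y - g (c • x)‖ ^ 2 =
      2 * (‖y‖ ^ 2 + ‖g (c • x)‖ ^ 2) := by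
    intro g c y
    have := hsc c (g.symm y)
    have e1 : ‖y + g (c • x)‖ = ‖g.symm y + c • x‖ := by
      rw [← g.norm_map (g.symm y + c • x), map_add, g.apply_symm_apply]
    have e2 : ‖y - g (c • x)‖ = ‖g.symm y - c • x‖ := by
      rw [← g.norm_map (g.symm y - c • x), map_sub, g.apply_symm_apply]
    rw [e1, e2, g.norm_map, this, g.symm.norm_map]
  by_cases hz : z = 0
  · subst hz
    simp
    ring
  have hzn : ‖z‖ ≠ 0 := norm_ne_zero_iff.2 hz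
  have hxn : ‖x‖ ≠ 0 := norm_ne_zero_iff.2 hx
  have hcl : IsClosed {v : E | ‖y + v‖ ^ 2 + ‖y - v‖ ^ 2 = 2 * (‖y‖ ^ 2 + ‖v‖ ^ 2)} := by
    apply isClosed_eq <;> fun_prop
  have hmem : z ∈ closure {v : E | ‖y + v‖ ^ 2 + ‖y - v‖ ^ 2 = 2 * (‖y‖ ^ 2 + ‖v‖ ^ 2)} := by
    rw [Metric.mem_closure_iff]
    intro ε hε
    obtain ⟨g, hg⟩ := hG (‖x‖⁻¹ • x) (‖z‖⁻¹ • z) (by simp [norm_smul, hxn])
      (by simp [norm_smul, hzn]) (ε / ‖z‖) (by positivity)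
    refine ⟨g ((‖z‖ * ‖x‖⁻¹) • x), hiso g _ y, ?_⟩
    rw [dist_eq_norm]
    have e : z - g ((‖z‖ * ‖x‖⁻¹) • x) = -(‖z‖ • (g (‖x‖⁻¹ • x) - ‖z‖⁻¹ • z)) := by
      rw [smul_sub, smul_inv_smul₀ hzn, map_smul, map_smul, smul_smul]
      abel
    rw [e, norm_neg, norm_smul, norm_norm]
    calc ‖z‖ * ‖g (‖x‖⁻¹ • x) - ‖z‖⁻¹ • z‖ < ‖z‖ * (ε / ‖z‖) := by
          have : 0 < ‖z‖ := norm_pos_iff.2 hz
          gcongr
      _ = ε := by field_simp
  exact hcl.closure_subset_iff.2 (fun _ h => h) hmem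

end Pool.Agent.J6H26.LP
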